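import Pool.Agent.N54.HB.A2
import Pool.Agent.N618.HB.Dir

/-! Project HC, task 8: the height in one direction. -/

set_option autoImplicit false

namespace Pool.Agent.N441.HC

open MvPolynomial Pool.Agent.N741.HB Pool.Agent.N54.HB Pool.Agent.W603.LV

section ff

open FF

variable {k K : Type} [Field k] [Field K] [Algebra k K] [CharZero k] [IsFF k K] [IsAlgClosed k]

omit [IsAlgClosed k] in
theorem hgt_const (c : k) : hgt k (algebraMap k K c) = 0 :=
  Pool.Agent.W603.PV.hgt_algebraic (isAlgebraic_algebraMap c)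

/-- the height of a function which satisfies a relation with a fixed function -/
theorem hgt_of_rel {x f : K} (hx : Transcendental k x) {B C : ℕ} (hxC : hgt k x ≤ C)
    (P : ℕ → ℕ → k) (hP : ne2 B P) (h0 : ev2 B P x f = 0) :
    hgt k f ≤ (((B + 1) * (B * C) : ℕ) : ℤ) := by
  classical
  set e : ℕ → K := fun j => ∑ i ∈ Finset.range (B + 1), algebraMap k K (P i j) * x ^ i with he
  have h1 : ∑ j ∈ Finset.range (B + 1), e j * f ^ j = 0 := by
    rw [← h0, ev2, Finset.sum_comm]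
    refine Finset.sum_congr rfl fun j _ => ?_
    rw [he]
    beta_reduce
    rw [Finset.sum_mul]
    exact Finset.sum_congr rfl fun i _ => by ring
  have h2 : ∀ j, hgt k (e j) ≤ ((B * C : ℕ) : ℤ) := by
    intro j
    by_cases hj : e j = 0
    · rw [hj, hgt_zero]
      exact Int.natCast_nonneg _
    · have h3 : e j = ev2 B (fun i l => if l = 0 then P i j else 0) x (1 : K) := by
        rw [he, ev2]
        beta_reduce
        refine Finset.sum_congr rfl fun i _ => ?_
        rw [Finset.sum_eq_single 0]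
        · rw [if_pos rfl, pow_zero, mul_one]
        · intro l _ hl
          rw [if_neg hl, map_zero, zero_mul]
        · intro h
          exact absurd (Finset.mem_range.2 (Nat.succ_pos _)) h
      have h4 := Pool.Agent.N618.HB.hgt_ev2 B (fun i l => if l = 0 then P i j else 0) (x := x)
        (y := (1 : K)) (by rw [← h3]; exact hj)
      rw [← h3, hgt_one, add_zero] at h4
      refine h4.trans ?_
      push_cast
      exact mul_le_mul_of_nonneg_left hxC (Int.natCast_nonneg _)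
  obtain ⟨i₀, hi₀, j₀, hj₀, hij⟩ := hP
  have h3 : e j₀ ≠ 0 := by
    intro h4
    apply hx
    refine ⟨∑ i ∈ Finset.range (B + 1), Polynomial.monomial i (P i j₀), ?_, ?_⟩
    · intro h5
      apply hij
      have h6 := congrArg (fun p => Polynomial.coeff p i₀) h5
      simp only [Polynomial.finsetSum_coeff, Polynomial.coeff_monomial, Polynomial.coeff_zero]
        at h6
      rw [Finset.sum_ite_eq' (Finset.range (B + 1)) i₀, if_pos (Finset.mem_range.2 (by omega))] at h6
      exact h6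
    · rw [map_sum, ← h4, he]
      beta_reduce
      exact Finset.sum_congr rfl fun i _ => by rw [Polynomial.aeval_monomial]
  set D := Nat.findGreatest (fun j => e j ≠ 0) B with hD
  have hDB : D ≤ B := Nat.findGreatest_le B
  have heD : e D ≠ 0 := Nat.findGreatest_spec (P := fun j => e j ≠ 0) hj₀ h3
  have h4 : ∑ j ∈ Finset.range (D + 1), e j * f ^ j = 0 := by
    rw [← h1]
    refine Finset.sum_subset (Finset.range_subset_range.2 (by omega)) fun j hj hj' => ?_
    have h5 : e j = 0 := by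
      by_contra h6
      exact Nat.findGreatest_is_greatest (P := fun j => e j ≠ 0) (n := B) (k := j)
        (by
          have := Finset.mem_range.not.1 hj'
          omega) (by
          have := Finset.mem_range.1 hj
          omega) h6
    rw [h5, zero_mul]
  have h5 := hgt_root (k := k) e heD f h4
  refine h5.trans ?_
  have h6 : ∑ d ∈ Finset.range D, hgt k (e d) ≤ ∑ _d ∈ Finset.range D, ((B * C : ℕ) : ℤ) :=
    Finset.sum_le_sum fun d _ => h2 d
  rw [Finset.sum_const, Finset.card_range, nsmul_eq_mul] at h6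
  have h7 := h2 D
  have h8 : (D : ℤ) * ((B * C : ℕ) : ℤ) ≤ (B : ℤ) * ((B * C : ℕ) : ℤ) :=
    mul_le_mul_of_nonneg_right (by exact_mod_cast hDB) (Int.natCast_nonneg _)
  push_cast at *
  linarith

end ff

/-- one direction -/
theorem dirH (hc : S_can) (hd : S_dir) (N c₀ n k₀ : ℕ) : ∃ R₀ B : ℕ,
    ∀ (Ω : Type) [Field Ω] [CharZero Ω] [IsAlgClosed Ω] (d : ℕ) (t : Fin d → Ω) (θ : Ω) (b : Fin d),
    AlgebraicIndependent ℤ t →
    ∀ (h : MvPolynomial (Option (Fin d)) ℤ) (b0 : MvPolynomial (Fin d) ℤ)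
      (bj : Fin N → MvPolynomial (Option (Fin d)) ℤ),
    h ≠ 0 → h.totalDegree ≤ c₀ → b0 ≠ 0 → b0.totalDegree ≤ c₀ → (∀ j, (bj j).totalDegree ≤ c₀) →
    aeval (fun o : Option (Fin d) => o.elim θ t) h = 0 →
    (∀ j, aeval (fun o : Option (Fin d) => o.elim θ t) (bj j) ≠ 0) →
    ∃ (K : Subfield Ω) (H : Ω → ℕ), (∀ p : MvPolynomial (Option (Fin d)) ℤ,
        aeval (fun o : Option (Fin d) => o.elim θ t) p ∈ K) ∧
      (∀ f ∈ K, ∀ g ∈ K, f ≠ 0 → g ≠ 0 → H (f * g) ≤ H f + H g) ∧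
      (∀ f ∈ K, ∀ n : ℕ, f ≠ 0 → H (f ^ n) = n * H f) ∧ (∀ f ∈ K, H f⁻¹ = H f) ∧
      (∀ j, H (aeval (fun o : Option (Fin d) => o.elim θ t) (bj j) / aeval t b0) ≤ B) ∧
      (∀ f ∈ K, H f = 0 → IsAlgebraic (kb t b) f) ∧
      ∀ (e : Fin n → Fin N → ℕ) (u : Fin n → ℤ), (∀ i, u i ≠ 0) →
      (∀ J : Finset (Fin n), J.Nonempty → ∑ i ∈ J, (u i : Ω) *
        ∏ j, (aeval (fun o : Option (Fin d) => o.elim θ t) (bj j) / aeval t b0) ^ e i j ≠ 0) →
      ∀ (κ r : ℕ), ∀ η ∈ K, 1 ≤ κ → κ ≤ k₀ → R₀ ≤ r →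
      (∑ i, (u i : Ω) * ∏ j, (aeval (fun o : Option (Fin d) => o.elim θ t) (bj j) /
        aeval t b0) ^ e i j) ^ κ = η ^ r →
      ∀ i i' : Fin n, H ((∏ j, (aeval (fun o : Option (Fin d) => o.elim θ t) (bj j) /
        aeval t b0) ^ e i j) / ∏ j, (aeval (fun o : Option (Fin d) => o.elim θ t) (bj j) /
          aeval t b0) ^ e i' j) ≤ B := by
  classical
  obtain ⟨R₀, B, hRB⟩ := hd N c₀ n k₀
  refine ⟨R₀, (B + 1) * (B * c₀) + 4 * c₀ ^ 2, ?_⟩
  intro Ω _ _ _ d t θ b ht h b0 bj hne hdeg b0ne b0deg bjdeg hh hbj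
  let k : IntermediateField (kb t b) Ω := algebraicClosure (kb t b) Ω
  have hkcl : IsAlgClosed k := (algebraicClosure.isAlgClosure (kb t b) Ω).isAlgClosed
  have hk0 : CharZero k := inferInstance
  let K : IntermediateField k Ω := IntermediateField.adjoin k {t b, θ}
  have hxK : t b ∈ K := IntermediateField.subset_adjoin k _ (by simp)
  have hθK : θ ∈ K := IntermediateField.subset_adjoin k _ (by simp)
  let x : K := ⟨t b, hxK⟩
  let θ' : K := ⟨θ, hθK⟩
  have hxt : Transcendental k x := by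
    have h1 : Transcendental k (t b) := (trans_kb t b ht).algebraicClosure
    intro halg
    apply h1
    exact halg.algebraMap (A := Ω)
  have htop : IntermediateField.adjoin k {x, θ'} = ⊤ := by
    apply IntermediateField.lift_injective K
    rw [IntermediateField.lift_adjoin, IntermediateField.lift_top]
    have h1 : Subtype.val '' ({x, θ'} : Set K) = {t b, θ} := by
      rw [Set.image_pair]
    rw [h1]
  have hkS : ∀ c, c ≠ b → t c ∈ k.toSubfield.toSubring := by
    intro c hc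
    have h1 : t c ∈ kb t b := IntermediateField.subset_adjoin ℚ _ ⟨c, hc, rfl⟩
    have h2 : algebraMap (kb t b) Ω ⟨t c, h1⟩ ∈ k := k.algebraMap_mem _
    exact h2
  set ev : MvPolynomial (Option (Fin d)) ℤ →ₐ[ℤ] Ω :=
    aeval (fun o : Option (Fin d) => o.elim θ t) with hev
  have hexp : ∀ p : MvPolynomial (Option (Fin d)) ℤ, p.totalDegree ≤ c₀ →
      ∃ P : ℕ → ℕ → k, ((ev2 c₀ P x θ' : K) : Ω) = ev p ∧ (p ≠ 0 → ne2 c₀ P) := by
    intro p hp
    obtain ⟨P, hP1, hP2, hP3⟩ := coef2 t b k.toSubfield.toSubring θ hkS c₀ p hp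
    refine ⟨fun i j => ⟨P i j, hP1 i j⟩, ?_, ?_⟩
    · rw [coe_ev2, hev, hP2]
    · intro hp0
      obtain ⟨i, hi, j, hj, hij⟩ := hP3 hp0 ht
      refine ⟨i, hi, j, hj, ?_⟩
      intro h0
      apply hij
      exact congrArg Subtype.val h0
  obtain ⟨H, hH1, hH2⟩ := hexp h hdeg
  obtain ⟨B0, hB01, -⟩ := hexp (rename some b0) ((totalDegree_rename_le _ _).trans b0deg)
  choose Bj hBj1 hBj2 using fun j => hexp (bj j) (bjdeg j)
  have hev0 : ev (rename some b0) = aeval t b0 := by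
    rw [hev, aeval_rename]
    rfl
  have hevK : ∀ p, ev p ∈ K := by
    intro p
    induction p using MvPolynomial.induction_on with
    | C c =>
      rw [hev, aeval_C, eq_intCast]
      exact intCast_mem _ _
    | add P Q hP hQ =>
      rw [map_add]
      exact add_mem hP hQ
    | mul_X P o hP =>
      rw [map_mul]
      refine mul_mem hP ?_
      rw [hev, aeval_X]
      rcases o with _ | c
      · exact hθK
      · by_cases hc : c = b
        · rw [hc]
          exact hxK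
        · have h1 : algebraMap k Ω ⟨t c, hkS c hc⟩ ∈ K := K.algebraMap_mem _
          exact h1
  have hH0 : ev2 c₀ H x θ' = 0 := by
    apply Subtype.val_injective
    rw [hH1, hh]
    rfl
  obtain ⟨hFF, -, hhx, hhθ⟩ := hc c₀ k K x θ' hxt htop H (hH2 hne) hH0
  have := hFF
  let y : Fin N → K := fun j => ⟨ev (bj j) / aeval t b0,
    div_mem (hevK _) (by rw [← hev0]; exact hevK _)⟩
  have hy : ∀ j, (y j : Ω) = ev (bj j) / aeval t b0 := fun j => rfl
  have hb00 : aeval t b0 ≠ 0 := fun h0 => b0ne ((injective_iff_map_eq_zero _).1 ht _ h0)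
  have hB0 : ev2 c₀ B0 x θ' ≠ 0 := by
    intro h0
    apply hb00
    rw [← hev0, ← hB01, h0]
    rfl
  have hyj : ∀ j, y j ≠ 0 ∧ ev2 c₀ B0 x θ' * y j = ev2 c₀ (Bj j) x θ' := by
    intro j
    constructor
    · intro h0
      have h1 : (y j : Ω) = 0 := by rw [h0]; rfl
      rw [hy] at h1
      exact (div_ne_zero (hbj j) hb00) h1
    · apply Subtype.val_injective
      have h1 : (((ev2 c₀ B0 x θ' : K) * y j : K) : Ω) = (ev2 c₀ B0 x θ' : K) * (y j : Ω) := rfl
      rw [h1, hB01, hBj1, hy, hev0]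
      field_simp
  have hgy : ∀ j, hgt k (y j) ≤ 4 * c₀ * c₀ := by
    intro j
    obtain ⟨hy0, hyj⟩ := hyj j
    have hBj : ev2 c₀ (Bj j) x θ' ≠ 0 := by rw [← hyj]; exact mul_ne_zero hB0 hy0
    have h1 : y j = ev2 c₀ (Bj j) x θ' * (ev2 c₀ B0 x θ')⁻¹ := by
      rw [← hyj, mul_comm (ev2 c₀ B0 x θ'), mul_assoc, mul_inv_cancel₀ hB0, mul_one]
    rw [h1]
    have h2 := hgt_mul (k := k) hBj (inv_ne_zero hB0)
    rw [hgt_inv] at h2
    have h3 := Pool.Agent.N618.HB.hgt_ev2 c₀ (Bj j) hBj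
    have h4 := Pool.Agent.N618.HB.hgt_ev2 c₀ B0 hB0
    have h5 : (c₀ : ℤ) * (hgt k x + hgt k θ') ≤ c₀ * (c₀ + c₀) :=
      mul_le_mul_of_nonneg_left (by linarith) (Int.natCast_nonneg _)
    nlinarith
  let Hh : Ω → ℕ := fun f => if hf : f ∈ K then (hgt k (⟨f, hf⟩ : K)).toNat else 0
  have hHh : ∀ a : K, Hh (a : Ω) = (hgt k a).toNat := by
    intro a
    have h1 : (a : Ω) ∈ K := a.2
    simp only [Hh]
    rw [dif_pos h1]
  refine ⟨K.toSubfield, Hh, hevK, ?_, ?_, ?_, ?_, ?_, ?_⟩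
  · intro f hf g hg hf0 hg0
    have hf1 : (⟨f, hf⟩ : K) ≠ 0 := fun h0 => hf0 (congrArg Subtype.val h0)
    have hg1 : (⟨g, hg⟩ : K) ≠ 0 := fun h0 => hg0 (congrArg Subtype.val h0)
    have h1 := hgt_mul (k := k) hf1 hg1
    have h2 := hHh ((⟨f, hf⟩ : K) * ⟨g, hg⟩)
    have h3 := hHh (⟨f, hf⟩ : K)
    have h4 := hHh (⟨g, hg⟩ : K)
    have h5 : (((⟨f, hf⟩ : K) * ⟨g, hg⟩ : K) : Ω) = f * g := rfl
    rw [h5] at h2
    change Hh f = _ at h3
    change Hh g = _ at h4
    rw [h2, h3, h4]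
    have h6 := hgt_nonneg (k := k) (⟨f, hf⟩ : K)
    have h7 := hgt_nonneg (k := k) (⟨g, hg⟩ : K)
    omega
  · intro f hf m hf0
    have hf1 : (⟨f, hf⟩ : K) ≠ 0 := fun h0 => hf0 (congrArg Subtype.val h0)
    have h1 := hgt_pow (k := k) hf1 m
    have h2 := hHh ((⟨f, hf⟩ : K) ^ m)
    have h3 := hHh (⟨f, hf⟩ : K)
    have h5 : (((⟨f, hf⟩ : K) ^ m : K) : Ω) = f ^ m := rfl
    rw [h5] at h2
    change Hh f = _ at h3
    rw [h2, h3, h1]
    have h6 := hgt_nonneg (k := k) (⟨f, hf⟩ : K)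
    obtain ⟨a, ha⟩ := Int.eq_ofNat_of_zero_le h6
    rw [ha]
    exact_mod_cast Int.toNat_natCast (m * a)
  · intro f hf
    have h1 := hgt_inv (k := k) (⟨f, hf⟩ : K)
    have h2 := hHh ((⟨f, hf⟩ : K)⁻¹)
    have h3 := hHh (⟨f, hf⟩ : K)
    have h5 : (((⟨f, hf⟩ : K)⁻¹ : K) : Ω) = f⁻¹ := rfl
    rw [h5] at h2
    change Hh f = _ at h3
    rw [h2, h3, h1]
  · intro j
    rw [← hy, hHh]
    have h1 := hgy j
    have h2 : (4 * c₀ * c₀ : ℤ) = ((4 * c₀ ^ 2 : ℕ) : ℤ) := by push_cast; ring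
    rw [h2] at h1
    have h3 : (hgt k (y j)).toNat ≤ 4 * c₀ ^ 2 := by omega
    exact h3.trans (Nat.le_add_left _ _)
  · intro f hf h0
    have h3 := hHh (⟨f, hf⟩ : K)
    change Hh f = _ at h3
    rw [h0] at h3
    obtain ⟨c, hc'⟩ := const_of_hgt (k := k) (f := (⟨f, hf⟩ : K)) (by omega)
    have h4 : f = (c : Ω) := congrArg Subtype.val hc'
    rw [h4]
    exact mem_algebraicClosure_iff.1 c.2
  · intro e u hu hJ κ r η hη hκ1 hκ hr heq i i'
    have hcoe : ∀ i : Fin n, ((algebraMap k K ((u i : ℤ) : k) * ∏ j, y j ^ e i j : K) : Ω) =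
        (u i : Ω) * ∏ j, (ev (bj j) / aeval t b0) ^ e i j := by
      intro i
      have h1 : algebraMap k K ((u i : ℤ) : k) = ((u i : ℤ) : K) := map_intCast _ _
      rw [h1]
      push_cast
      rfl
    have key := hRB k K x θ' hxt htop H B0 Bj (hH2 hne) hH0 hB0 y hyj e
      (fun i => ((u i : ℤ) : k)) (by
        intro i
        exact_mod_cast hu i) (by
        intro J hJn h0
        apply hJ J hJn
        have h1 : ((∑ i ∈ J, algebraMap k K ((u i : ℤ) : k) * ∏ j, y j ^ e i j : K) : Ω) = 0 := by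
          rw [h0]; rfl
        rw [← h1]
        push_cast
        refine Finset.sum_congr rfl fun i _ => ?_
        rw [← hcoe i]
        push_cast
        rfl) κ r (⟨η, hη⟩ : K) hκ1 hκ hr (by
        apply Subtype.val_injective
        have h1 : (((⟨η, hη⟩ : K) ^ r : K) : Ω) = η ^ r := rfl
        rw [h1, ← heq]
        have h2 : ∀ z : K, ((z ^ κ : K) : Ω) = (z : Ω) ^ κ := fun z => rfl
        rw [h2]
        congr 1
        have h3 : ∀ f : Fin n → K, ((∑ i, f i : K) : Ω) = ∑ i, (f i : Ω) := fun f => by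
          push_cast; rfl
        rw [h3]
        exact Finset.sum_congr rfl fun i _ => hcoe i) i i'
    obtain ⟨P, hP1, hP2⟩ := key
    have h1 := hgt_of_rel hxt hhx P hP1 hP2
    have hpi : ∀ i, (∏ j, y j ^ e i j) ≠ 0 := fun i =>
      Finset.prod_ne_zero_iff.2 fun j _ => pow_ne_zero _ (hyj j).1
    have hui : ∀ i, algebraMap k K ((u i : ℤ) : k) ≠ 0 := fun i =>
      (map_ne_zero _).2 (by exact_mod_cast hu i)
    have h2 : (∏ j, y j ^ e i j) / (∏ j, y j ^ e i' j) =
        algebraMap k K (((u i' : ℤ) : k) / ((u i : ℤ) : k)) *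
        ((algebraMap k K ((u i : ℤ) : k) * ∏ j, y j ^ e i j) /
          (algebraMap k K ((u i' : ℤ) : k) * ∏ j, y j ^ e i' j)) := by
      rw [map_div₀]
      have := hpi i
      have := hpi i'
      have := hui i
      have := hui i'
      field_simp
    have h3 : hgt k ((∏ j, y j ^ e i j) / (∏ j, y j ^ e i' j)) ≤
        (((B + 1) * (B * c₀) : ℕ) : ℤ) := by
      rw [h2]
      refine (hgt_mul (k := k) ?_ ?_).trans ?_
      · rw [map_div₀]
        exact div_ne_zero (hui i') (hui i)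
      · exact div_ne_zero (mul_ne_zero (hui i) (hpi i)) (mul_ne_zero (hui i') (hpi i'))
      · rw [hgt_const, zero_add]
        exact h1
    have h4 : (((∏ j, y j ^ e i j) / (∏ j, y j ^ e i' j) : K) : Ω) =
        (∏ j, (ev (bj j) / aeval t b0) ^ e i j) / ∏ j, (ev (bj j) / aeval t b0) ^ e i' j := by
      push_cast
      rfl
    rw [← h4, hHh]
    have h5 := Int.toNat_le.2 h3
    exact h5.trans (Nat.le_add_right _ _)

end Pool.Agent.N441.HC
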