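import Pool.Agent.N741.HB.Stm3
import Pool.Agent.N426.HB.Const
import Pool.Agent.N441.HC.H1

/-! Project HC, task 8: heights on function fields of several variables. -/

set_option autoImplicit false

namespace Pool.Agent.N441.HC

open MvPolynomial Pool.Agent.N741.HB Pool.Agent.N741.HC Pool.Agent.N54.HB Pool.Agent.W603.LV
  Pool.Agent.N426.HB

/-- an element which is constant in all directions is algebraic over `ℚ`, of bounded degree -/
theorem const_poly {Ω : Type} [Field Ω] [CharZero Ω] {d : ℕ} (t : Fin d → Ω)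
    (ht : AlgebraicIndependent ℤ t) (f : Ω) (halg : ∀ b, IsAlgebraic (kb t b) f)
    (P : Polynomial (MvPolynomial (Fin d) ℤ)) (hP1 : P ≠ 0)
    (hPf : P.eval₂ (aeval t).toRingHom f = 0) :
    ∃ p : Polynomial ℤ, p ≠ 0 ∧ p.natDegree ≤ P.natDegree ∧
      p.eval₂ (Int.castRingHom Ω) f = 0 := by
  classical
  have halg0 : IsAlgebraic (Algebra.adjoin ℚ (Set.range t)) f := by
    have hmem : ∀ p : MvPolynomial (Fin d) ℤ, aeval t p ∈ Algebra.adjoin ℚ (Set.range t) := by
      intro p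
      induction p using MvPolynomial.induction_on with
      | C c =>
        rw [aeval_C, eq_intCast]
        exact intCast_mem _ _
      | add P Q hP hQ =>
        rw [map_add]
        exact add_mem hP hQ
      | mul_X P o hP =>
        rw [map_mul, aeval_X]
        exact mul_mem hP (Algebra.subset_adjoin ⟨o, rfl⟩)
    let g : MvPolynomial (Fin d) ℤ →+* Algebra.adjoin ℚ (Set.range t) :=
      RingHom.codRestrict (aeval t).toRingHom _ hmem
    have hg : Function.Injective g := by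
      rw [injective_iff_map_eq_zero]
      intro p hp
      apply (injective_iff_map_eq_zero _).1 ht
      exact congrArg Subtype.val hp
    refine ⟨P.map g, (Polynomial.map_ne_zero_iff hg).2 hP1, ?_⟩
    rw [Polynomial.aeval_def, Polynomial.eval₂_map]
    exact hPf
  have hfQ := alg_inter t ht f halg0 halg
  obtain ⟨i₀, hi₀⟩ : ∃ i, P.coeff i ≠ 0 := by
    by_contra hcon
    push Not at hcon
    exact hP1 (Polynomial.ext fun i => by rw [hcon i, Polynomial.coeff_zero])
  obtain ⟨m, hm⟩ : ∃ m, (P.coeff i₀).coeff m ≠ 0 := by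
    by_contra hcon
    push Not at hcon
    exact hi₀ (MvPolynomial.ext _ _ fun m => by rw [hcon m, coeff_zero])
  have hcc := const_coeff t ht f hfQ P hPf m
  have hi₀n : i₀ ≤ P.natDegree := Polynomial.le_natDegree_of_ne_zero hi₀
  refine ⟨∑ i ∈ Finset.range (P.natDegree + 1), Polynomial.monomial i ((P.coeff i).coeff m),
    ?_, ?_, ?_⟩
  · intro h5
    apply hm
    have h6 := congrArg (fun p => Polynomial.coeff p i₀) h5
    simp only [Polynomial.finsetSum_coeff, Polynomial.coeff_monomial, Polynomial.coeff_zero]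
      at h6
    rw [Finset.sum_ite_eq' (Finset.range (P.natDegree + 1)) i₀,
      if_pos (Finset.mem_range.2 (by omega))] at h6
    exact h6
  · refine Polynomial.natDegree_sum_le_of_forall_le _ _ fun i hi => ?_
    refine (Polynomial.natDegree_monomial_le _).trans ?_
    have := Finset.mem_range.1 hi
    omega
  · rw [Polynomial.eval₂_finsetSum, ← hcc]
    exact Finset.sum_congr rfl fun i _ => by rw [Polynomial.eval₂_monomial, eq_intCast]

theorem heightL (hc : S_can) (hd : S_dir) (N c₀ n k₀ : ℕ) : ∃ R₀ B : ℕ,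
    ∀ (Ω : Type) [Field Ω] [CharZero Ω] [IsAlgClosed Ω] (d : ℕ)
      (ψ : MvPolynomial (Option (Fin d)) ℤ →+* Ω),
    (∀ c : MvPolynomial (Fin d) ℤ, c ≠ 0 → ψ (rename some c) ≠ 0) →
    ∀ (h : MvPolynomial (Option (Fin d)) ℤ) (b0 : MvPolynomial (Fin d) ℤ)
      (bj : Fin N → MvPolynomial (Option (Fin d)) ℤ),
    h ≠ 0 → h.totalDegree ≤ c₀ → b0 ≠ 0 → b0.totalDegree ≤ c₀ → (∀ j, (bj j).totalDegree ≤ c₀) →
    ψ h = 0 → (∀ j, ψ (bj j) ≠ 0) → ∀ (L : Type) [Field L] (ι : L →+* Ω),
    (∀ f : L, ∃ p q, ι f = ψ p / ψ q) → ∀ y : Fin N → L,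
    (∀ j, ι (y j) = ψ (bj j) / ψ (rename some b0)) →
    ∃ H : L → ℕ, (∀ f g, f ≠ 0 → g ≠ 0 → H (f * g) ≤ H f + H g) ∧
      (∀ f (m : ℕ), f ≠ 0 → H (f ^ m) = m * H f) ∧ (∀ f, H f⁻¹ = H f) ∧
      (∀ j, H (y j) ≤ d * B) ∧
      (∀ f, H f = 0 → ∀ P : Polynomial (MvPolynomial (Fin d) ℤ), P ≠ 0 →
        P.eval₂ (ψ.comp (rename some).toRingHom) (ι f) = 0 →
        ∃ p : Polynomial ℤ, p ≠ 0 ∧ p.natDegree ≤ P.natDegree ∧
          p.eval₂ (Int.castRingHom L) f = 0) ∧
      ∀ (e : Fin n → Fin N → ℕ) (u : Fin n → ℤ), (∀ i, u i ≠ 0) →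
      (∀ J : Finset (Fin n), J.Nonempty → ∑ i ∈ J, (u i : L) * ∏ j, y j ^ e i j ≠ 0) →
      ∀ (κ r : ℕ) (η : L), 1 ≤ κ → κ ≤ k₀ → R₀ ≤ r →
      (∑ i, (u i : L) * ∏ j, y j ^ e i j) ^ κ = η ^ r →
      ∀ i i' : Fin n, H ((∏ j, y j ^ e i j) / ∏ j, y j ^ e i' j) ≤ d * B := by
  classical
  obtain ⟨R₀, B, hRB⟩ := dirH hc hd N c₀ n k₀
  refine ⟨R₀, B, ?_⟩
  intro Ω _ _ _ d ψ hind h b0 bj hne hdeg b0ne b0deg bjdeg hh hbj L _ ι hfr y hy
  let t : Fin d → Ω := fun c => ψ (X (some c))
  let θ : Ω := ψ (X none)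
  have hψ : ∀ p, aeval (fun o : Option (Fin d) => o.elim θ t) p = ψ p := by
    intro p
    have h3 : (aeval (fun o : Option (Fin d) => o.elim θ t) :
        MvPolynomial (Option (Fin d)) ℤ →ₐ[ℤ] Ω).toRingHom = ψ := by
      apply MvPolynomial.ringHom_ext
      · intro c
        rw [AlgHom.toRingHom_eq_coe, RingHom.coe_coe, aeval_C, eq_intCast, eq_intCast, map_intCast]
      · intro o
        rw [AlgHom.toRingHom_eq_coe, RingHom.coe_coe, aeval_X]
        rcases o with _ | c
        · rfl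
        · rfl
    exact RingHom.congr_fun h3 p
  have hren : ∀ c : MvPolynomial (Fin d) ℤ, aeval t c = ψ (rename some c) := by
    intro c
    rw [← hψ, aeval_rename]
    rfl
  have ht : AlgebraicIndependent ℤ t := by
    refine (injective_iff_map_eq_zero _).2 fun p hp => ?_
    by_contra hp0
    exact hind p hp0 (by rw [← hren]; exact hp)
  have key := fun b : Fin d => hRB Ω d t θ b ht h b0 bj hne hdeg b0ne b0deg bjdeg
    (by rw [hψ, hh]) (fun j => by rw [hψ]; exact hbj j)
  simp only [hψ, hren] at key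
  choose K H hK h1 h2 h3 h4 h5 h6 using key
  have hιK : ∀ b (f : L), ι f ∈ K b := by
    intro b f
    obtain ⟨p, q, hpq⟩ := hfr f
    rw [hpq]
    exact div_mem (hK b p) (hK b q)
  have hι0 : ∀ f : L, f ≠ 0 → ι f ≠ 0 := fun f hf => (map_ne_zero ι).2 hf
  have hsum : ∀ F : Fin d → ℕ, (∀ b, F b ≤ B) → ∑ b, F b ≤ d * B := by
    intro F hF
    have h7 : ∑ b, F b ≤ ∑ _b : Fin d, B := Finset.sum_le_sum fun b _ => hF b
    rw [Finset.sum_const, Finset.card_univ, Fintype.card_fin, smul_eq_mul] at h7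
    exact h7
  have hprod : ∀ (e : Fin N → ℕ), ι (∏ j, y j ^ e j) =
      ∏ j, (ψ (bj j) / ψ (rename some b0)) ^ e j := by
    intro e
    rw [map_prod]
    exact Finset.prod_congr rfl fun j _ => by rw [map_pow, hy]
  refine ⟨fun f => ∑ b, H b (ι f), ?_, ?_, ?_, ?_, ?_, ?_⟩
  · intro f g hf hg
    beta_reduce
    rw [← Finset.sum_add_distrib, map_mul]
    exact Finset.sum_le_sum fun b _ => h1 b _ (hιK b f) _ (hιK b g) (hι0 f hf) (hι0 g hg)
  · intro f m hf
    beta_reduce
    rw [Finset.mul_sum, map_pow]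
    exact Finset.sum_congr rfl fun b _ => h2 b _ (hιK b f) m (hι0 f hf)
  · intro f
    beta_reduce
    rw [map_inv₀]
    exact Finset.sum_congr rfl fun b _ => h3 b _ (hιK b f)
  · intro j
    beta_reduce
    rw [hy]
    exact hsum _ fun b => h4 b j
  · intro f hf P hP1 hP
    have hf' : ∀ b, H b (ι f) = 0 := fun b => Finset.sum_eq_zero_iff.1 hf b (Finset.mem_univ b)
    obtain ⟨p, hp0, hpd, hp⟩ := const_poly t ht (ι f)
      (fun b => h5 b _ (hιK b f) (hf' b)) P hP1 (by
        have h7 : (aeval t).toRingHom = ψ.comp (rename some).toRingHom := RingHom.ext hren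
        rw [h7]
        exact hP)
    refine ⟨p, hp0, hpd, ?_⟩
    apply ι.injective
    rw [map_zero, ← hp, Polynomial.hom_eval₂]
    congr 1
    exact RingHom.ext_int _ _
  · intro e u hu hJ κ r η hκ1 hκ hr heq i i'
    beta_reduce
    rw [map_div₀, hprod, hprod]
    have hT : ∀ i, ι ((u i : L) * ∏ j, y j ^ e i j) =
        (u i : Ω) * ∏ j, (ψ (bj j) / ψ (rename some b0)) ^ e i j := by
      intro i
      rw [map_mul, map_intCast, hprod]
    refine hsum _ fun b => h6 b e u hu ?_ κ r (ι η) (hιK b η) hκ1 hκ hr ?_ i i'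
    · intro J hJn h0
      apply hJ J hJn
      apply ι.injective
      rw [map_zero, ← h0, map_sum]
      exact Finset.sum_congr rfl fun i _ => hT i
    · rw [← map_pow, ← heq, map_pow, map_sum]
      congr 1
      exact Finset.sum_congr rfl fun i _ => (hT i).symm

/-- **HC/8** -/
theorem algH_of (hc : S_can) (hd : S_dir) : S_algH := by
  classical
  intro d N c₀ n k₀
  obtain ⟨R₀, B, hRB⟩ := heightL hc hd N c₀ n k₀
  refine ⟨R₀, d * B + c₀, ?_⟩
  intro h b0 b hI hdeg b0ne b0deg hb L _ φ hφ hfrac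
  let t : Fin d → L := fun b => φ (X (some b))
  let θ : L := φ (X none)
  have hφe : ∀ p, φ p = aeval (fun o : Option (Fin d) => o.elim θ t) p := by
    intro p
    have h3 : φ = (aeval (fun o : Option (Fin d) => o.elim θ t) :
        MvPolynomial (Option (Fin d)) ℤ →ₐ[ℤ] L).toRingHom := by
      apply MvPolynomial.ringHom_ext
      · intro c
        rw [AlgHom.toRingHom_eq_coe, RingHom.coe_coe, aeval_C, eq_intCast, eq_intCast, map_intCast]
      · intro o
        rw [AlgHom.toRingHom_eq_coe, RingHom.coe_coe, aeval_X]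
        rcases o with _ | c
        · rfl
        · rfl
    exact RingHom.congr_fun h3 p
  have hren : ∀ c : MvPolynomial (Fin d) ℤ, φ (rename some c) = aeval t c := by
    intro c
    rw [hφe, aeval_rename]
    rfl
  have hren0 : ∀ c : MvPolynomial (Fin d) ℤ, c ≠ 0 → φ (rename some c) ≠ 0 := by
    intro c hc h0
    rw [hφ] at h0
    obtain ⟨c', hc', h3⟩ := h0
    apply hI.one
    refine ⟨c' * c, mul_ne_zero hc' hc, ?_⟩
    rw [mul_one, map_mul]
    exact h3
  have hchar : CharZero L := by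
    apply charZero_of_inj_zero
    intro m hm
    by_contra hm0
    have h3 : (C (m : ℤ) : MvPolynomial (Fin d) ℤ) ≠ 0 := by
      rw [Ne, C_eq_zero]
      exact_mod_cast hm0
    apply hren0 _ h3
    rw [hren, aeval_C, eq_intCast]
    exact_mod_cast hm
  have ht : AlgebraicIndependent ℤ t := by
    refine (injective_iff_map_eq_zero _).2 fun p hp => ?_
    by_contra hp0
    exact hren0 p hp0 (by rw [hren]; exact hp)
  have hhh : φ h = 0 := by
    rw [hφ]
    exact ⟨1, one_ne_zero, dvd_mul_left _ _⟩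
  have hdegH : (optionEquivLeft ℤ (Fin d) h).natDegree ≤ c₀ := by
    rw [natDegree_optionEquivLeft]
    exact (degreeOf_le_totalDegree h none).trans hdeg
  have hbdeg : ∀ y : L, ∃ P : Polynomial (MvPolynomial (Fin d) ℤ), P ≠ 0 ∧ P.natDegree ≤ c₀ ∧
      P.eval₂ (aeval t).toRingHom y = 0 := by
    intro y
    obtain ⟨P, hP1, hP2, hP3⟩ := degL t θ ht (optionEquivLeft ℤ (Fin d) h) (by
      rw [Ne, map_eq_zero_iff _ (optionEquivLeft ℤ (Fin d)).injective]
      exact hI.ne) (by rw [← ev_left, ← hφe, hhh]) (fun z => by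
        obtain ⟨a, b, _, hz⟩ := hfrac z
        exact ⟨a, b, by rw [hz, hφe, hφe]⟩) y
    exact ⟨P, hP1, hP2.trans hdegH, hP3⟩
  -- in the algebraic closure
  let ι : L →+* AlgebraicClosure L := algebraMap L (AlgebraicClosure L)
  let ψ : MvPolynomial (Option (Fin d)) ℤ →+* AlgebraicClosure L := ι.comp φ
  have hψ : ∀ p, ψ p = ι (φ p) := fun p => rfl
  have hch : CharZero (AlgebraicClosure L) := charZero_of_injective_algebraMap ι.injective
  obtain ⟨H, h1, h2, h3, h4, h5, h6⟩ := hRB (AlgebraicClosure L) d ψ (fun c hc => by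
      rw [hψ]
      exact (map_ne_zero ι).2 (hren0 c hc)) h b0 b hI.ne hdeg b0ne b0deg (fun j => (hb j).1)
    (by rw [hψ, hhh, map_zero]) (fun j => by
      rw [hψ]
      exact (map_ne_zero ι).2 fun h0 => (hb j).2 ((hφ _).1 h0)) L ι (fun f => by
      obtain ⟨p, q, _, hpq⟩ := hfrac f
      exact ⟨p, q, by rw [hpq, map_div₀, hψ, hψ]⟩)
    (fun j => φ (b j) / φ (rename some b0)) (fun j => by rw [map_div₀, hψ, hψ])
  refine ⟨H, h1, h2, h3, fun j => (h4 j).trans (Nat.le_add_right _ _), fun f hf => ?_,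
    fun e u hu hJ κ r η hκ1 hκ hr heq i i' =>
      (h6 e u hu hJ κ r η hκ1 hκ hr heq i i').trans (Nat.le_add_right _ _)⟩
  obtain ⟨P, hP1, hP2, hP3⟩ := hbdeg f
  obtain ⟨p, hp0, hpd, hp⟩ := h5 f hf P hP1 (by
    have h7 : ψ.comp (rename some).toRingHom = ι.comp (aeval t).toRingHom := by
      refine RingHom.ext fun p => ?_
      change ι (φ (rename some p)) = ι (aeval t p)
      rw [hren]
    rw [h7, ← Polynomial.hom_eval₂, hP3, map_zero])
  exact ⟨p, hp0, (hpd.trans hP2).trans (Nat.le_add_left _ _), hp⟩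

/-- **HC/8**: heights on function fields of several variables -/
theorem algH (h : S_dir) : S_algH := algH_of Pool.Agent.N966.HB.can h

end Pool.Agent.N441.HC
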